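import Pool.Agent.Y492.AL.Stm

/-!
Project AL, job AL-LAW: the expectation of the number of open clusters of the box.
-/

namespace Pool.Agent.Y627.AL

open H974 Finset MeasureTheory Pool.Agent.Y492.AL

/-! ### Clusters of the induced graph and classes of vertices -/

theorem src_mem_VB {n : ℕ} {e : Edg} (he : e ∈ EB n) : src e ∈ VB n := by
  obtain ⟨x, y, _ | _⟩ := e
  · simp only [EB, mem_RE_false] at he
    simp only [VB, src_mk, Finset.mem_product, Finset.mem_Ico]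
    omega
  · simp only [EB, mem_RE_true] at he
    simp only [VB, src_mk, Finset.mem_product, Finset.mem_Ico]
    omega

theorem tgt_mem_VB {n : ℕ} {e : Edg} (he : e ∈ EB n) : tgt e ∈ VB n := by
  obtain ⟨x, y, _ | _⟩ := e
  · simp only [EB, mem_RE_false] at he
    simp only [VB, tgt_false, Finset.mem_product, Finset.mem_Ico]
    omega
  · simp only [EB, mem_RE_true] at he
    simp only [VB, tgt_true, Finset.mem_product, Finset.mem_Ico]
    omega

theorem mem_EB_of_ends {n : ℕ} {e : Edg} (h1 : src e ∈ VB n) (h2 : tgt e ∈ VB n) : e ∈ EB n := by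
  obtain ⟨x, y, _ | _⟩ := e
  · simp only [VB, src_mk, tgt_false, Finset.mem_product, Finset.mem_Ico] at h1 h2
    simp only [EB, mem_RE_false]
    omega
  · simp only [VB, src_mk, tgt_true, Finset.mem_product, Finset.mem_Ico] at h1 h2
    simp only [EB, mem_RE_true]
    omega

/-- The vertices of the box as a set. -/
def WB (n : ℕ) : Set (ℤ × ℤ) := {v : ℤ × ℤ | (0 ≤ v.1 ∧ v.1 < n) ∧ (0 ≤ v.2 ∧ v.2 < n)}

theorem mem_WB_iff {n : ℕ} {v : ℤ × ℤ} : v ∈ WB n ↔ v ∈ VB n := by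
  show ((0 ≤ v.1 ∧ v.1 < n) ∧ (0 ≤ v.2 ∧ v.2 < n)) ↔ _
  simp only [VB, Finset.mem_product, Finset.mem_Ico]

/-- The induced graph. -/
def GB (n : ℕ) (ω : sqLattice.edgeSet → Bool) : SimpleGraph (WB n) := (openGraph ω).induce (WB n)

theorem GB_adj {n : ℕ} {ω : sqLattice.edgeSet → Bool} (u v : WB n) :
    (GB n ω).Adj u v ↔ Adj (↑(FF (EB n) ω) : Set Edg) (u : ℤ × ℤ) (v : ℤ × ℤ) := by
  show (openGraph ω).Adj (u : ℤ × ℤ) (v : ℤ × ℤ) ↔ _
  rw [openGraph_adj]
  constructor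
  · rintro ⟨e, he, hc⟩
    refine ⟨e, ?_, hc⟩
    rw [Finset.mem_coe, mem_FF]
    refine ⟨?_, he⟩
    rcases hc with ⟨h1, h2⟩ | ⟨h1, h2⟩
    · exact mem_EB_of_ends (h1 ▸ mem_WB_iff.mp u.2) (h2 ▸ mem_WB_iff.mp v.2)
    · exact mem_EB_of_ends (h1 ▸ mem_WB_iff.mp v.2) (h2 ▸ mem_WB_iff.mp u.2)
  · rintro ⟨e, he, hc⟩
    rw [Finset.mem_coe, mem_FF] at he
    exact ⟨e, he.2, hc⟩

theorem adj_mem {n : ℕ} {ω : sqLattice.edgeSet → Bool} {u v : Vtx}
    (h : Adj (↑(FF (EB n) ω) : Set Edg) u v) : v ∈ WB n := by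
  obtain ⟨e, he, hc⟩ := h
  rw [Finset.mem_coe, mem_FF] at he
  rw [mem_WB_iff]
  rcases hc with ⟨h1, h2⟩ | ⟨h1, h2⟩
  · rw [← h2]; exact tgt_mem_VB he.1
  · rw [← h1]; exact src_mem_VB he.1

theorem GB_reach_of {n : ℕ} {ω : sqLattice.edgeSet → Bool} {u v : WB n}
    (h : (GB n ω).Reachable u v) :
    Reach (↑(FF (EB n) ω) : Set Edg) (u : ℤ × ℤ) (v : ℤ × ℤ) := by
  rw [SimpleGraph.reachable_iff_reflTransGen] at h
  induction h with
  | refl => exact Reach.refl _ _
  | tail _ hs ih => exact ih.trans ((GB_adj _ _).mp hs).reach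

theorem reach_GB_of {n : ℕ} {ω : sqLattice.edgeSet → Bool} {u : WB n} {w : Vtx}
    (h : Reach (↑(FF (EB n) ω) : Set Edg) (u : ℤ × ℤ) w) :
    ∃ hw : w ∈ WB n, (GB n ω).Reachable u ⟨w, hw⟩ := by
  induction h with
  | refl => exact ⟨u.2, SimpleGraph.Reachable.refl _⟩
  | @tail b c _ hs ih =>
    obtain ⟨hb, hr⟩ := ih
    refine ⟨adj_mem hs, hr.trans ?_⟩
    exact ((GB_adj (⟨b, hb⟩ : WB n) ⟨c, adj_mem hs⟩).mpr hs).reachable

theorem GB_reach_iff {n : ℕ} {ω : sqLattice.edgeSet → Bool} {u v : WB n} :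
    (GB n ω).Reachable u v ↔ Reach (↑(FF (EB n) ω) : Set Edg) (u : ℤ × ℤ) (v : ℤ × ℤ) :=
  ⟨GB_reach_of, fun h => (reach_GB_of h).2⟩

/-- The class of a connected component. -/
noncomputable def cls (n : ℕ) (ω : sqLattice.edgeSet → Bool) (c : (GB n ω).ConnectedComponent) :
    Set Vtx :=
  {w : Vtx | Reach (↑(FF (EB n) ω) : Set Edg) (c.exists_rep.choose : ℤ × ℤ) w}

theorem cls_mk {n : ℕ} {ω : sqLattice.edgeSet → Bool} (v : WB n) :
    cls n ω ((GB n ω).connectedComponentMk v) =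
      {w : Vtx | Reach (↑(FF (EB n) ω) : Set Edg) (v : ℤ × ℤ) w} := by
  set c := (GB n ω).connectedComponentMk v with hc
  have h1 : (GB n ω).connectedComponentMk c.exists_rep.choose = (GB n ω).connectedComponentMk v :=
    c.exists_rep.choose_spec
  have h2 : (GB n ω).Reachable c.exists_rep.choose v := SimpleGraph.ConnectedComponent.eq.mp h1
  have h3 := GB_reach_of h2
  ext w
  show Reach (↑(FF (EB n) ω) : Set Edg) (c.exists_rep.choose : ℤ × ℤ) w ↔
    Reach (↑(FF (EB n) ω) : Set Edg) (v : ℤ × ℤ) w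
  exact ⟨fun h => h3.symm.trans h, fun h => h3.trans h⟩

theorem cls_inj (n : ℕ) (ω : sqLattice.edgeSet → Bool) : Function.Injective (cls n ω) := by
  intro c d h
  obtain ⟨u, rfl⟩ := c.exists_rep
  obtain ⟨v, rfl⟩ := d.exists_rep
  change cls n ω ((GB n ω).connectedComponentMk u) = cls n ω ((GB n ω).connectedComponentMk v) at h
  rw [cls_mk, cls_mk] at h
  have h1 : (v : ℤ × ℤ) ∈ {w : Vtx | Reach (↑(FF (EB n) ω) : Set Edg) (u : ℤ × ℤ) w} := by
    rw [h]; exact Reach.refl _ _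
  exact SimpleGraph.ConnectedComponent.eq.mpr (GB_reach_iff.mpr h1)

theorem cls_range (n : ℕ) (ω : sqLattice.edgeSet → Bool) : Set.range (cls n ω) =
    (fun v : Vtx => {w : Vtx | Reach (↑(FF (EB n) ω) : Set Edg) v w}) '' (↑(VB n) : Set Vtx) := by
  ext s
  constructor
  · rintro ⟨c, rfl⟩
    obtain ⟨u, rfl⟩ := c.exists_rep
    refine ⟨u, ?_, ?_⟩
    · rw [Finset.mem_coe]; exact mem_WB_iff.mp u.2
    · exact (cls_mk u).symm
  · rintro ⟨v, hv, rfl⟩
    rw [Finset.mem_coe] at hv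
    exact ⟨(GB n ω).connectedComponentMk ⟨v, mem_WB_iff.mpr hv⟩, cls_mk _⟩

theorem clusters_eq (n : ℕ) (ω : sqLattice.edgeSet → Bool) :
    clusters n ω = ncl (VB n) (FF (EB n) ω) := by
  show Nat.card (GB n ω).ConnectedComponent = _
  unfold ncl
  rw [← cls_range, ← Nat.card_coe_set_eq]
  exact Nat.card_congr (Equiv.ofInjective _ (cls_inj n ω))

/-! ### Expectation of a function of finitely many edges -/

theorem fun_FF_eq (S : Finset Edg) (f : Finset Edg → ℝ) (ω : sqLattice.edgeSet → Bool) :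
    f (FF S ω) = ∑ T ∈ S.powerset, Set.indicator {ω | FF S ω = T} (fun _ => f T) ω := by
  classical
  rw [Finset.sum_eq_single (FF S ω)]
  · rw [Set.indicator_of_mem]
    rfl
  · intro T _ hT
    rw [Set.indicator_of_notMem]
    intro h
    exact hT (show FF S ω = T from h).symm
  · intro h
    exact absurd (Finset.mem_powerset.mpr (Finset.filter_subset _ _)) h

theorem law_fun (p : unitInterval) (S : Finset Edg) (f : Finset Edg → ℝ) :
    Integrable (fun ω => f (FF S ω)) (bondLaw p) ∧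
    ∫ ω, f (FF S ω) ∂(bondLaw p) = Ex (fun _ => (p : ℝ)) S f := by
  classical
  have hint : ∀ T ∈ S.powerset,
      Integrable (Set.indicator {ω | FF S ω = T} (fun _ => f T)) (bondLaw p) := by
    intro T _
    exact (integrable_const (f T)).indicator (meas_FF S T)
  have hfun : (fun ω => f (FF S ω)) =
      fun ω => ∑ T ∈ S.powerset, Set.indicator {ω | FF S ω = T} (fun _ => f T) ω := by
    funext ω
    exact fun_FF_eq S f ω
  rw [hfun]
  refine ⟨integrable_finsetSum _ hint, ?_⟩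
  rw [integral_finsetSum _ hint]
  unfold Ex
  apply Finset.sum_congr rfl
  intro T hT
  rw [integral_indicator (meas_FF S T), setIntegral_const, smul_eq_mul,
    law_eq p (Finset.mem_powerset.mp hT)]

theorem law : S_LAW := by
  intro p n
  have h := law_fun p (EB n) (fun F => (ncl (VB n) F : ℝ))
  have hfun : (fun ω => (clusters n ω : ℝ)) = fun ω => ((ncl (VB n) (FF (EB n) ω) : ℕ) : ℝ) := by
    funext ω
    rw [clusters_eq]
  rw [hfun]
  exact h

end Pool.Agent.Y627.AL
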